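import Pool.Agent.MWGN.StmtsB

/-!
# Row MC2 of squad MWGN
-/

set_option autoImplicit false

namespace Pool.Agent.MWGN.H45

open Pool.Agent.Helper14_MV Pool.Agent.Helper2_MV Pool.Agent.MWGN
open Pool.Agent.MWK (pre Gw)

theorem gh_split (g h : ℕ → List ℕ) (N i : ℕ) (hi : i < N) :
    ∃ u v, gh g h N = u ++ (g i ++ (h i ++ v)) := by
  have h1 : i ∈ List.range N := List.mem_range.2 hi
  obtain ⟨l1, l2, h2⟩ := List.append_of_mem h1
  refine ⟨l1.flatMap (fun i => g i ++ h i), l2.flatMap (fun i => g i ++ h i), ?_⟩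
  unfold gh
  rw [h2, List.flatMap_append, List.flatMap_cons]
  simp [List.append_assoc]

theorem mc2 (hF : ForStmt) (hM : McvStmt) (hP : MpoStmt) (hH : HzeStmt) : Mc2Stmt := by
  intro τ m hτ f p q hb hc ⟨h0, h1⟩
  obtain ⟨H0, hform, hpin, H1, H2, H3, hH0⟩ := (hF τ m hτ f).1 false
  set g : ℕ → List ℕ := fun i => if i < m then f (N1.L i) else if decide (i = m) = false then
    f (N1.L m) else f (N1.L (m + 1)) with hg
  set h : ℕ → List ℕ := fun i => if i < m then f (N1.C i) ++ f (N1.C i) else [] with hh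
  set w : List ℕ := p ++ (w0 τ m true false).flatMap f ++ q with hw
  have hw' : w = p ++ (f 0 ++ (f 1 ++ (f 2 ++ (f 0 ++ (gh g h (m + 2) ++ (f 1 ++ (H0 ++ q))))))) := by
    rw [hw, hform true]
    simp [List.append_assoc]
  have hgj : ∀ i < m + 2, ∃ j ≤ m + 1, g i = f (N1.L j) := by
    intro i hi
    rcases Nat.lt_or_ge i m with h2 | h2
    · exact ⟨i, by omega, by simp [hg, h2]⟩
    · by_cases h3 : i = m
      · exact ⟨m + 1, le_refl _, by simp [hg, h3]⟩
      · have h4 : i = m + 1 := by omega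
        exact ⟨m, by omega, by simp [hg, h4]⟩
  have hgH : ∀ i < m + 2, ∃ A B, H0 ++ q = A ++ (g i ++ B) := by
    intro i hi
    obtain ⟨j, hj, he⟩ := hgj i hi
    obtain ⟨A, B, hAB⟩ := hpin j hj
    refine ⟨A, B ++ q, ?_⟩
    rw [he, hAB]
    simp [List.append_assoc]
  have hgm : ∀ i < m + 2, ∀ c ∈ g i, c ∈ H0 ++ q := by
    intro i hi c hc'
    obtain ⟨A, B, hAB⟩ := hgH i hi
    rw [hAB]
    simp [hc']
  have hgG : ∀ i < m + 2, ∀ c ∈ g i, c ∈ gh g h (m + 2) := by
    intro i hi c hc'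
    exact mem_gh.2 ⟨i, hi, Or.inl hc'⟩
  have hhG : ∀ i < m + 2, ∀ c ∈ h i, 2 ≤ (gh g h (m + 2)).count c := by
    intro i hi c hc'
    obtain ⟨u, v, huv⟩ := gh_split g h (m + 2) i hi
    have h2 : i < m := by
      by_contra hn
      simp [hh, hn] at hc'
    have h3 : h i = f (N1.C i) ++ f (N1.C i) := by simp [hh, h2]
    have h4 : c ∈ f (N1.C i) := by
      rw [h3] at hc'
      simpa using hc'
    have h5 : 1 ≤ (f (N1.C i)).count c := List.count_pos_iff.2 h4
    rw [huv, h3]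
    simp only [List.count_append]
    omega
  have hGw : ∀ c ∈ gh g h (m + 2), 2 ≤ w.count c := by
    intro c hc'
    obtain ⟨i, hi, h2⟩ := mem_gh.1 hc'
    have h3 : 1 ≤ (gh g h (m + 2)).count c := List.count_pos_iff.2 hc'
    rcases h2 with h2 | h2
    · have h4 : 1 ≤ (H0 ++ q).count c := List.count_pos_iff.2 (hgm i hi c h2)
      rw [hw']
      simp only [List.count_append] at h4 ⊢
      omega
    · have h4 := hhG i hi c h2
      rw [hw']
      simp only [List.count_append] at h4 ⊢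
      omega
  have hK0 : K0 τ m w := hb.1
  obtain ⟨hFa, hHb, hL, hC⟩ := hP N1 m m (by omega) p (f 0) (f 1) (f 2) (gh g h (m + 2)) (H0 ++ q) w
    hw' hGw hK0.c1 h0 h1
  -- the order of the two lights in `G`
  have hz : N1.L m ∈ pre (gh g h (m + 2)) (N1.L (m + 1)) := by
    have h2 : nn w (N1.L m) (N1.L (m + 1)) = 1 := hc.2
    unfold nn at h2
    obtain ⟨a1, a2, a3, a4, _, _⟩ := hL m (by omega)
    obtain ⟨_, _, _, _, _, a5⟩ := hL (m + 1) (by omega)
    rw [a5] at h2
    simp only [List.count_append, List.count_eq_zero_of_not_mem a1,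
      List.count_eq_zero_of_not_mem a2, List.count_eq_zero_of_not_mem a3,
      List.count_eq_zero_of_not_mem a4] at h2
    exact List.count_pos_iff.1 (by omega)
  have hne : ∀ i < m + 2, ¬ (N1.L m ∈ g i ∧ N1.L (m + 1) ∈ g i) := by
    rintro i hi ⟨h2, h3⟩
    obtain ⟨A, B, hAB⟩ := hgH i hi
    obtain ⟨h4, h5⟩ := hH τ m p (f 0) (f 1) (f 2) (gh g h (m + 2)) (H0 ++ q) A (g i) B w hw' hGw hK0
      h0 h1 hAB h2 h3
    exact h5 (hgG i hi _ h4)
  obtain ⟨hcov, -⟩ := hM N1 m m (le_refl _) (by omega) p (f 0) (f 1) (f 2) (gh g h (m + 2)) (H0 ++ q) w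
    hw' hGw hK0.c1 h0 h1 g h rfl hgm hhG (fun _ => hne) (fun _ => hz)
  have hz1 : N1.L m ∈ f (N1.L (m + 1)) := by
    have h2 := hcov m (by omega)
    simpa [hg] using h2
  have hz2 : N1.L (m + 1) ∈ f (N1.L m) := by
    have h2 := hcov (m + 1) (by omega)
    simpa [hg] using h2
  -- all `z` are in front of the first light of level 2
  have hx : nn w (N1.L m) ((N2 m).L 0) = w.count (N1.L m) := hK0.c2.xl 0 (by omega)
  have hy : nn w (N1.L (m + 1)) ((N2 m).L 0) = 1 := hK0.c2.yl 0 (by omega)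
  set μ := (N2 m).L 0 with hμ
  set A : List ℕ := p ++ (f 0 ++ (f 1 ++ (f 2 ++ (f 0 ++ (gh g h (m + 2) ++ (f 1 ++
    (H1 ++ (f (N1.L m) ++ H2)))))))) with hA
  have hwA : w = A ++ (f (N1.L (m + 1)) ++ (H3 ++ q)) := by
    rw [hw', hA, hH0]
    simp [List.append_assoc]
  have hμA : μ ∉ A := by
    intro h2
    unfold nn at hx
    rw [hwA, MWK.pre_append_mem h2] at hx
    have h3 : (pre A μ).count (N1.L m) ≤ A.count (N1.L m) :=
      (MWK.pre_prefix A μ).sublist.count_le _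
    have h4 : 1 ≤ (f (N1.L (m + 1))).count (N1.L m) := List.count_pos_iff.2 hz1
    simp only [List.count_append] at hx
    omega
  have h2 : 1 ≤ (gh g h (m + 2)).count (N1.L (m + 1)) :=
    List.count_pos_iff.2 (hgG (m + 1) (by omega) _ (hcov (m + 1) (by omega)))
  have h3 : 1 ≤ (f (N1.L m)).count (N1.L (m + 1)) := List.count_pos_iff.2 hz2
  unfold nn at hy
  rw [hwA, MWK.pre_append hμA] at hy
  simp only [hA, List.count_append] at hy
  omega

end Pool.Agent.MWGN.H45
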