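import Pool.Agent.MWGN.StmtsC
import Pool.Agent.Helper34_MWGN.NOA

/-!
# MWGN, row NOF: literal form of a run (MP_23468a_al)

The tail part is the one of row NOA (helper34).
-/

namespace Pool.Agent.MWGN.H45

open Pool.Agent Pool.Agent.MWGN
open Pool.Agent.MWK (pre)
open Pool.Agent.Helper34_MWGN (Rl pre_cons_ne pre_filter cnt_filter cnt_pre_filter fm_congr)

theorem mem_nr {ν : Nm} {r c : ℕ} : c ∈ nr ν r ↔ c = ν.x ∨ c = ν.b ∨
    (∃ i ≤ r, ν.S i = c) ∨ (∃ i ≤ r, ν.L i = c) ∨ (∃ i < r, ν.C i = c) := by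
  simp [nr, Nat.lt_succ_iff]

/-- the core -/
theorem nof_core (hS : SrtStmt) {ν : Nm} {τ : List ℕ} {r : ℕ} (hN : Nr ν r) (hT : Tau τ r)
    {w : List ℕ} (hw : WR ν r w) (ht : WT ν τ r w) :
    ∃ (i j : ℕ) (U : ℕ → List ℕ) (f : ℕ → ℕ), 1 ≤ i ∧ 1 ≤ j ∧
    (∀ s < r, (∀ c ∈ U s, c = ν.x ∨ c = ν.C s) ∧ 2 ≤ (U s).count (ν.C s)) ∧ (∀ s ≤ r, 1 ≤ f s) ∧
    w.filter (fun c => decide (c ∈ nr ν r)) = List.replicate i ν.x ++
      ((List.range r).flatMap (fun s => ν.L s :: U s) ++ ν.L r :: (List.replicate j ν.x ++ ν.b ::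
        τ.flatMap (fun s => ν.S s :: List.replicate (f s) (ν.L s)))) ∧
    (nn w ν.x (ν.L 0) = nn w ν.x (ν.L r) ↔ ∀ s < r, ν.x ∉ U s) := by
  classical
  have hbS : ∀ i ≤ r, ν.S i ≠ ν.b := by
    intro i hi e
    have h1 := hN
    unfold Nr at h1
    rw [List.nodup_cons] at h1
    apply h1.1
    rw [← e]
    exact List.mem_map_of_mem (List.mem_range.2 (by omega))
  have hbw : ν.b ∈ w := List.count_pos_iff.1 (by rw [hw.sb]; exact Nat.one_pos)
  obtain ⟨W2, hW2⟩ := MWK.mem_split hbw
  obtain ⟨W1, hW1⟩ : ∃ W1, W1 = pre w ν.b := ⟨_, rfl⟩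
  rw [← hW1] at hW2
  have hb1 : ν.b ∉ W1 := by rw [hW1]; exact MWK.not_mem_pre _ _
  have hb2 : ν.b ∉ W2 := by
    intro h
    have h1 := hw.sb
    have h2 : 0 < W2.count ν.b := List.count_pos_iff.2 h
    rw [hW2, List.count_append, List.count_cons_self] at h1
    omega
  have cnt : ∀ c, c ≠ ν.b → w.count c = W1.count c + W2.count c := by
    intro c h1
    rw [hW2]
    simp [List.count_append, List.count_cons, h1.symm]
  have nnb : ∀ c, nn w c ν.b = W1.count c := by
    intro c
    unfold nn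
    rw [← hW1]
  have nn1 : ∀ c d, d ∈ W1 → nn w c d = (pre W1 d).count c := by
    intro c d h4
    unfold nn
    rw [hW2, MWK.pre_append_mem h4]
  have nn2 : ∀ c d, c ≠ ν.b → d ≠ ν.b → W1.count d = 0 →
      nn w c d = W1.count c + (pre W2 d).count c := by
    intro c d h1 h2 h6
    unfold nn
    rw [hW2, MWK.pre_append (List.count_eq_zero.1 h6), pre_cons_ne h2.symm]
    simp [List.count_append, List.count_cons, h1.symm]
  have neb : ∀ c, 2 ≤ w.count c → c ≠ ν.b := by
    intro c h e
    subst e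
    have := hw.sb
    omega
  have hx : ν.x ≠ ν.b ∧ 2 ≤ W1.count ν.x ∧ W2.count ν.x = 0 := by
    have h2 := neb _ hw.x2
    have h4 := nnb ν.x
    have h5 := cnt ν.x h2
    have h6 := hw.x2
    have h8 := hw.xb
    refine ⟨h2, ?_, ?_⟩ <;> omega
  have hL : ∀ i ≤ r, ν.L i ≠ ν.b ∧ W1.count (ν.L i) = 1 ∧ 1 ≤ W2.count (ν.L i) := by
    intro i hi
    have h6 := hw.l2 i hi
    have h2 := neb _ h6
    have h4 := nnb (ν.L i)
    have h5 := cnt (ν.L i) h2
    have h8 := hw.lb i hi
    refine ⟨h2, ?_, ?_⟩ <;> omega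
  have hC : ∀ i < r, ν.C i ≠ ν.b ∧ 2 ≤ W1.count (ν.C i) ∧ W2.count (ν.C i) = 0 := by
    intro i hi
    have h6 := hw.c2 i hi
    have h2 := neb _ h6
    have h4 := nnb (ν.C i)
    have h5 := cnt (ν.C i) h2
    have h8 := hw.cb i hi
    refine ⟨h2, ?_, ?_⟩ <;> omega
  have hSS : ∀ i ≤ r, W1.count (ν.S i) = 0 ∧ W2.count (ν.S i) = 1 := by
    intro i hi
    have h6 := ht.ss i hi
    have h4 := nnb (ν.S i)
    have h5 := cnt (ν.S i) (hbS i hi)
    have h7 := ht.oS i hi
    refine ⟨?_, ?_⟩ <;> omega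
  obtain ⟨p, hp⟩ : ∃ p : ℕ → Bool, p = fun c => decide (c ∈ nr ν r) := ⟨_, rfl⟩
  rw [← hp]
  have pm : ∀ c, p c = true ↔ c ∈ nr ν r := by
    intro c
    rw [hp]
    simp
  have px : p ν.x = true := (pm _).2 (mem_nr.2 (Or.inl rfl))
  have pb : p ν.b = true := (pm _).2 (mem_nr.2 (Or.inr (Or.inl rfl)))
  have pS : ∀ i ≤ r, p (ν.S i) = true := fun i hi =>
    (pm _).2 (mem_nr.2 (Or.inr (Or.inr (Or.inl ⟨i, hi, rfl⟩))))
  have pL : ∀ i ≤ r, p (ν.L i) = true := fun i hi =>
    (pm _).2 (mem_nr.2 (Or.inr (Or.inr (Or.inr (Or.inl ⟨i, hi, rfl⟩)))))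
  have pC : ∀ i < r, p (ν.C i) = true := fun i hi =>
    (pm _).2 (mem_nr.2 (Or.inr (Or.inr (Or.inr (Or.inr ⟨i, hi, rfl⟩)))))
  -- front part
  obtain ⟨v, hv⟩ : ∃ v, v = W1.filter p := ⟨_, rfl⟩
  have c1x : v.count ν.x = W1.count ν.x := by rw [hv]; exact cnt_filter px W1
  have c1L : ∀ i ≤ r, v.count (ν.L i) = 1 := fun i hi => by
    rw [hv, cnt_filter (pL i hi)]; exact (hL i hi).2.1
  have c1C : ∀ i < r, v.count (ν.C i) = W1.count (ν.C i) := fun i hi => by
    rw [hv]; exact cnt_filter (pC i hi) W1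
  have m1L : ∀ i ≤ r, ν.L i ∈ v := fun i hi =>
    List.count_pos_iff.1 (by have := c1L i hi; omega)
  have w1L : ∀ i ≤ r, ν.L i ∈ W1 := fun i hi => by
    have h := m1L i hi
    rw [hv] at h
    exact (List.mem_filter.1 h).1
  have qx : ∀ k ≤ r, (pre v (ν.L k)).count ν.x = nn w ν.x (ν.L k) := by
    intro k hk
    rw [hv, cnt_pre_filter px (pL k hk), nn1 _ _ (w1L k hk)]
  have qC : ∀ i < r, ∀ k ≤ r, (pre v (ν.L k)).count (ν.C i) = nn w (ν.C i) (ν.L k) := by
    intro i hi k hk
    rw [hv, cnt_pre_filter (pC i hi) (pL k hk), nn1 _ _ (w1L k hk)]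
  have wC : ∀ i < r, w.count (ν.C i) = v.count (ν.C i) := by
    intro i hi
    have h1 := cnt (ν.C i) (hC i hi).1
    have h2 := (hC i hi).2.2
    have h3 := c1C i hi
    omega
  have vsub : ∀ c ∈ v, c = ν.x ∨ (∃ i ≤ r, ν.L i = c) ∨ (∃ i < r, ν.C i = c) := by
    intro c hc
    rw [hv, List.mem_filter, pm, mem_nr] at hc
    obtain ⟨hc0, hc1⟩ := hc
    rcases hc1 with h | h | ⟨i, hi, h⟩ | h | h
    · exact Or.inl h
    · exact absurd (h ▸ hc0) hb1
    · exact absurd (h ▸ hc0) (List.count_eq_zero.1 (hSS i hi).1)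
    · exact Or.inr (Or.inl h)
    · exact Or.inr (Or.inr h)
  have hxL : ∀ k ≤ r, ν.x ≠ ν.L k := by
    intro k hk e
    have h1 := (hL k hk).2.1
    rw [← e] at h1
    have := hx.2.1
    omega
  have hCL : ∀ i < r, ∀ k ≤ r, ν.C i ≠ ν.L k := by
    intro i hi k hk e
    have h1 := (hL k hk).2.1
    rw [← e] at h1
    have := (hC i hi).2.1
    omega
  have step : ∀ s < r, ν.L s ∈ pre v (ν.L (s + 1)) := by
    intro s hs
    apply MWK.pre_of_count (x := ν.C s) (m1L s (by omega))
    rw [qC s hs s (by omega), qC s hs (s + 1) (by omega), hw.cl0 s hs s le_rfl,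
      hw.cl1 s hs (s + 1) (by omega) (by omega)]
    have := hw.c2 s hs
    omega
  have ord : ∀ k ≤ r, ∀ s < k, ν.L s ∈ pre v (ν.L k) := by
    intro k
    induction k with
    | zero => intro _ s hs; omega
    | succ k ih =>
      intro hk s hs
      rcases Nat.lt_or_ge s k with h | h
      · exact MWK.pre_trans (ih (by omega) s h) (step k (by omega))
      · have : s = k := by omega
        rw [this]
        exact step k (by omega)
  have hU : ∀ s, ∃ B, s < r → pre v (ν.L (s + 1)) = pre v (ν.L s) ++ ν.L s :: B := by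
    intro s
    by_cases hs : s < r
    · obtain ⟨B, hB⟩ := MWK.pre_mono (step s hs)
      exact ⟨B, fun _ => hB⟩
    · exact ⟨[], fun h => absurd h hs⟩
  choose U hU using hU
  obtain ⟨D, hD⟩ := MWK.mem_split (m1L r le_rfl)
  have cU : ∀ s < r, ∀ c, c ≠ ν.L s → (pre v (ν.L (s + 1))).count c =
      (pre v (ν.L s)).count c + (U s).count c := by
    intro s hs c hc
    rw [hU s hs]
    simp [List.count_append, List.count_cons, hc.symm]
  have cD : ∀ c, c ≠ ν.L r → v.count c = (pre v (ν.L r)).count c + D.count c := by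
    intro c hc
    conv_lhs => rw [hD]
    simp [List.count_append, List.count_cons, hc.symm]
  -- lights
  have oneL : ∀ k ≤ r, ∀ i < k, (pre v (ν.L k)).count (ν.L i) = 1 := by
    intro k hk i hi
    have h1 := MWK.count_pre_le v (ν.L i) (ν.L k)
    have h2 := c1L i (by omega)
    have h3 : 0 < (pre v (ν.L k)).count (ν.L i) := List.count_pos_iff.2 (ord k hk i hi)
    omega
  have zeroL : ∀ k ≤ r, ∀ i ≤ r, k ≤ i → ν.L i ∉ pre v (ν.L k) := by
    intro k hk i hi hki h
    rcases Nat.lt_or_ge k i with h1 | h1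
    · exact MWK.pre_asymm h (ord i hi k h1)
    · have h2 : i = k := by omega
      rw [h2] at h
      exact MWK.not_mem_pre v _ h
  have UL : ∀ s < r, ∀ i ≤ r, ν.L i ∉ U s := by
    intro s hs i hi h
    have hin : ν.L i ∈ pre v (ν.L (s + 1)) := by
      rw [hU s hs]
      exact List.mem_append_right _ (List.mem_cons_of_mem _ h)
    have hlt : i < s + 1 := by
      by_contra hcon
      exact zeroL (s + 1) (by omega) i hi (by omega) hin
    have h3 : 0 < (U s).count (ν.L i) := List.count_pos_iff.2 h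
    have h4 := oneL (s + 1) (by omega) i hlt
    rcases Nat.lt_or_ge i s with h5 | h5
    · have h6 := oneL s (by omega) i h5
      have h7 : ν.L i ≠ ν.L s := by
        intro e
        rw [e] at h6
        have := List.count_eq_zero.2 (MWK.not_mem_pre v (ν.L s))
        omega
      have h8 := cU s hs (ν.L i) h7
      omega
    · have h6 : i = s := by omega
      subst h6
      rw [hU i hs, List.count_append, List.count_cons_self] at h4
      omega
  have DL : ∀ i ≤ r, ν.L i ∉ D := by
    intro i hi h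
    have h3 : 0 < D.count (ν.L i) := List.count_pos_iff.2 h
    rcases Nat.lt_or_ge i r with h5 | h5
    · have h6 := oneL r le_rfl i h5
      have h7 : ν.L i ≠ ν.L r := by
        intro e
        rw [e] at h6
        have := List.count_eq_zero.2 (MWK.not_mem_pre v (ν.L r))
        omega
      have h8 := cD (ν.L i) h7
      have h9 := c1L i hi
      omega
    · have h6 : i = r := by omega
      subst h6
      have h9 := c1L i hi
      rw [hD, List.count_append, List.count_cons_self] at h9
      omega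
  have vU : ∀ s < r, ∀ c ∈ U s, c ∈ v := by
    intro s hs c hc
    apply MWK.mem_of_mem_pre (y := ν.L (s + 1))
    rw [hU s hs]
    exact List.mem_append_right _ (List.mem_cons_of_mem _ hc)
  have UC : ∀ s < r, ∀ i < r, i ≠ s → ν.C i ∉ U s := by
    intro s hs i hi his
    have h1 := cU s hs (ν.C i) (hCL i hi s (by omega))
    rw [qC i hi (s + 1) (by omega), qC i hi s (by omega)] at h1
    apply List.count_eq_zero.1
    rcases Nat.lt_or_ge i s with h2 | h2
    · rw [hw.cl1 i hi (s + 1) (by omega) (by omega), hw.cl1 i hi s h2 (by omega)] at h1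
      omega
    · rw [hw.cl0 i hi (s + 1) (by omega), hw.cl0 i hi s (by omega)] at h1
      omega
  have UCs : ∀ s < r, 2 ≤ (U s).count (ν.C s) := by
    intro s hs
    have h1 := cU s hs (ν.C s) (hCL s hs s (by omega))
    rw [qC s hs (s + 1) (by omega), qC s hs s (by omega),
      hw.cl1 s hs (s + 1) (by omega) (by omega), hw.cl0 s hs s le_rfl] at h1
    have := hw.c2 s hs
    omega
  have Usub : ∀ s < r, ∀ c ∈ U s, c = ν.x ∨ c = ν.C s := by
    intro s hs c hc
    rcases vsub c (vU s hs c hc) with h | ⟨i, hi, h⟩ | ⟨i, hi, h⟩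
    · exact Or.inl h
    · exact absurd (h ▸ hc) (UL s hs i hi)
    · by_cases his : i = s
      · right
        rw [← h, his]
      · exact absurd (h ▸ hc) (UC s hs i hi his)
  have DC : ∀ i < r, ν.C i ∉ D := by
    intro i hi
    have h1 := cD (ν.C i) (hCL i hi r le_rfl)
    rw [qC i hi r le_rfl, hw.cl1 i hi r hi le_rfl, wC i hi] at h1
    apply List.count_eq_zero.1
    omega
  have vD : ∀ c ∈ D, c ∈ v := by
    intro c hc
    rw [hD]
    exact List.mem_append_right _ (List.mem_cons_of_mem _ hc)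
  have Dsub : ∀ c ∈ D, c = ν.x := by
    intro c hc
    rcases vsub c (vD c hc) with h | ⟨i, hi, h⟩ | ⟨i, hi, h⟩
    · exact h
    · exact absurd (h ▸ hc) (DL i hi)
    · exact absurd (h ▸ hc) (DC i hi)
  have hDr : D = List.replicate D.length ν.x := List.eq_replicate_of_mem Dsub
  have Asub : ∀ c ∈ pre v (ν.L 0), c = ν.x := by
    intro c hc
    rcases vsub c (MWK.mem_of_mem_pre hc) with h | ⟨i, hi, h⟩ | ⟨i, hi, h⟩
    · exact h
    · exact absurd (h ▸ hc) (zeroL 0 (by omega) i hi (by omega))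
    · have h1 := qC i hi 0 (by omega)
      rw [hw.cl0 i hi 0 (by omega)] at h1
      exact absurd (h ▸ hc) (List.count_eq_zero.1 h1)
  have hAr : pre v (ν.L 0) = List.replicate (pre v (ν.L 0)).length ν.x :=
    List.eq_replicate_of_mem Asub
  have hA1 : 1 ≤ (pre v (ν.L 0)).length := by
    have h1 := qx 0 (by omega)
    have h2 := hw.x0
    have h3 := List.count_le_length (a := ν.x) (l := pre v (ν.L 0))
    omega
  have hD1 : 1 ≤ D.length := by
    have h1 := cD ν.x (hxL r le_rfl)
    rw [qx r le_rfl] at h1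
    have h2 := hw.xr
    have h3 := List.count_le_length (a := ν.x) (l := D)
    have h4 := cnt ν.x hx.1
    have h5 := hx.2.2
    omega
  have form : ∀ k ≤ r, pre v (ν.L k) = pre v (ν.L 0) ++
      (List.range k).flatMap (fun s => ν.L s :: U s) := by
    intro k
    induction k with
    | zero => intro _; simp
    | succ k ih =>
      intro hk
      rw [hU k (by omega), ih (by omega), List.range_succ, List.flatMap_append]
      simp
  have e1 : v = List.replicate (pre v (ν.L 0)).length ν.x ++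
      ((List.range r).flatMap (fun s => ν.L s :: U s) ++ ν.L r ::
        List.replicate D.length ν.x) := by
    rw [← hAr, ← hDr]
    conv_lhs => rw [hD, form r le_rfl]
    simp
  -- no x between the first and the last light
  have hiff : ∀ k ≤ r, (pre v (ν.L 0)).count ν.x ≤ (pre v (ν.L k)).count ν.x ∧
      ((pre v (ν.L 0)).count ν.x = (pre v (ν.L k)).count ν.x ↔ ∀ s < k, ν.x ∉ U s) := by
    intro k
    induction k with
    | zero => intro _; exact ⟨le_rfl, by simp⟩
    | succ k ih =>
      intro hk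
      obtain ⟨h1, h2⟩ := ih (by omega)
      have h3 := cU k (by omega) ν.x (hxL k (by omega))
      refine ⟨by omega, ?_⟩
      constructor
      · intro h s hs
        rcases Nat.lt_or_ge s k with h4 | h4
        · exact h2.1 (by omega) s h4
        · have h5 : s = k := by omega
          rw [h5]
          apply List.count_eq_zero.1
          omega
      · intro h
        have h4 := h2.2 (fun s hs => h s (by omega))
        have h5 := List.count_eq_zero.2 (h k (by omega))
        omega
  -- last part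
  have c2S : ∀ i ≤ r, (W2.filter p).count (ν.S i) = 1 := fun i hi => by
    rw [cnt_filter (pS i hi)]; exact (hSS i hi).2
  have c2L : ∀ i ≤ r, (W2.filter p).count (ν.L i) = W2.count (ν.L i) := fun i hi =>
    cnt_filter (pL i hi) W2
  have m2S : ∀ i ≤ r, ν.S i ∈ W2.filter p := fun i hi =>
    List.count_pos_iff.1 (by have := c2S i hi; omega)
  have m2L : ∀ i ≤ r, ν.L i ∈ W2.filter p := fun i hi =>
    List.count_pos_iff.1 (by have := c2L i hi; have := (hL i hi).2.2; omega)
  have rSL : ∀ i ≤ r, Rl (W2.filter p) (ν.S i) (ν.L i) := by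
    intro i hi
    apply Rl.of_not (m2L i hi) ?_ (c2S i hi)
    · rw [cnt_pre_filter (pL i hi) (pS i hi)]
      have h1 := nn2 (ν.L i) (ν.S i) (hL i hi).1 (hbS i hi) (hSS i hi).1
      have h2 := ht.lt i hi
      have h4 := (hL i hi).2.1
      omega
    · intro e
      have h1 := (hL i hi).2.1
      have h2 := (hSS i hi).1
      rw [e] at h2
      omega
  have rLS : ∀ i j, i ≤ r → j ≤ r → i ∈ pre τ j → Rl (W2.filter p) (ν.L i) (ν.S j) := by
    intro i j hi hj hij
    apply Rl.of_pre (m2L i hi) (m2S j hj)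
    rw [cnt_pre_filter (pL i hi) (pS j hj), c2L i hi]
    have h1 := nn2 (ν.L i) (ν.S j) (hL i hi).1 (hbS j hj) (hSS j hj).1
    have h2 := ht.lT i j hi hj hij
    have h3 := cnt (ν.L i) (hL i hi).1
    omega
  have hτ : τ.Pairwise (fun i j => i ∈ pre τ j) := by
    have : ∀ A B : List ℕ, A ++ B = τ → B.Pairwise (fun i j => i ∈ pre τ j) := by
      intro A B
      induction B generalizing A with
      | nil => intro _; exact List.Pairwise.nil
      | cons i B ih =>
        intro h
        rw [List.pairwise_cons]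
        refine ⟨?_, ih (A ++ [i]) (by simpa using h)⟩
        intro j hj
        have hnd := hT.1
        rw [← h] at hnd
        have h1 : j ∉ A ++ [i] := by
          intro hjA
          have h2 : A ++ i :: B = (A ++ [i]) ++ B := by simp
          rw [h2, List.nodup_append] at hnd
          exact hnd.2.2 j hjA j hj rfl
        have h2 : τ = (A ++ [i]) ++ B := by rw [← h]; simp
        rw [h2, MWK.pre_append h1]
        simp
    exact this [] τ rfl
  obtain ⟨M2, hM2⟩ : ∃ M2, M2 = τ.flatMap (fun i => [ν.S i, ν.L i]) := ⟨_, rfl⟩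
  have hpM2 : M2.Pairwise (Rl (W2.filter p)) := by
    rw [hM2, List.pairwise_flatMap]
    constructor
    · intro i hi
      have hi' := (hT.2 i).1 hi
      simp only [List.pairwise_cons, List.mem_singleton, forall_eq]
      exact ⟨rSL i hi', by simp⟩
    · apply List.Pairwise.imp_of_mem ?_ hτ
      intro i j hi hj hij
      have hi' := (hT.2 i).1 hi
      have hj' := (hT.2 j).1 hj
      have h1 := rLS i j hi' hj' hij
      have h2 := rSL i hi'
      have h3 := rSL j hj'
      intro c hc d hd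
      simp only [List.mem_cons, List.not_mem_nil, or_false] at hc hd
      rcases hc with rfl | rfl <;> rcases hd with rfl | rfl
      · exact h2.tr h1
      · exact (h2.tr h1).tr h3
      · exact h1
      · exact h1.tr h3
  have hsub2 : ∀ c ∈ W2.filter p, c ∈ M2 := by
    intro c hc
    rw [List.mem_filter, pm, mem_nr] at hc
    obtain ⟨hc0, hc1⟩ := hc
    rw [hM2]
    simp only [List.mem_cons, List.mem_flatMap, List.not_mem_nil, or_false]
    rcases hc1 with h | h | ⟨i, hi, h⟩ | ⟨i, hi, h⟩ | ⟨i, hi, h⟩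
    · exact absurd (h ▸ hc0) (List.count_eq_zero.1 hx.2.2)
    · exact absurd (h ▸ hc0) hb2
    · exact ⟨i, (hT.2 i).2 hi, Or.inl h.symm⟩
    · exact ⟨i, (hT.2 i).2 hi, Or.inr h.symm⟩
    · exact absurd (h ▸ hc0) (List.count_eq_zero.1 (hC i hi).2.2)
  have e2 : W2.filter p = τ.flatMap (fun s => ν.S s ::
      List.replicate (W2.count (ν.L s)) (ν.L s)) := by
    have h1 := hS M2 (W2.filter p) (hpM2.imp (fun h => h.2.2.1)) hsub2
      (hpM2.imp (fun h => h.2.2.2))
    rw [h1, hM2, List.flatMap_assoc]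
    apply fm_congr
    intro i hi
    have hi' := (hT.2 i).1 hi
    simp only [List.flatMap_cons, List.flatMap_nil, c2S i hi', c2L i hi']
    simp
  refine ⟨(pre v (ν.L 0)).length, D.length, U, fun s => W2.count (ν.L s), hA1, hD1,
    fun s hs => ⟨Usub s hs, UCs s hs⟩, fun s hs => (hL s hs).2.2, ?_, ?_⟩
  · have e3 : w.filter p = v ++ ν.b :: W2.filter p := by
      rw [hv]
      conv_lhs => rw [hW2]
      rw [List.filter_append, List.filter_cons_of_pos pb]
    rw [e3, e2]
    conv_lhs => rw [e1]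
    simp [List.append_assoc]
  · rw [← qx 0 (by omega), ← qx r le_rfl]
    exact (hiff r le_rfl).2

/-- **NOF** -/
theorem nof (hS : SrtStmt) : NofStmt := by
  intro ν τ r hN hT w hw ht
  exact nof_core hS hN hT hw ht

end Pool.Agent.MWGN.H45
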